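import Pool.Agent.helper7.ZB.SpecT

/-!
# Theorem ZB (MP_baa4d7_al), row ZE2: the groups `E` of the groups in the class `KZ`
-/

set_option autoImplicit false

namespace Pool.Agent.ZB

open Pool.Agent.helper58.DC Pool.Agent.DI Pool.Agent.GR Pool.Agent.OB Pool.Agent.DR Pool.Agent.FI Pool.Agent.FI3 Pool.Agent.FI4 Pool.Agent.FI4I Pool.Agent.LE Pool.Agent.L5 Pool.Agent.NAB

theorem ZE2_om {G : Type} [Group G] (p j : ℕ) (g : G) (Z : Subgroup G) :
    Om p j (cjS g Z) = (MulAut.conj g).toMonoidHom '' (Om p j Z) := by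
  ext y
  constructor
  · rintro ⟨h1, z, hz, h2⟩
    obtain ⟨z', hz', rfl⟩ := hz
    refine ⟨z' ^ p ^ j, ⟨?_, z', hz', rfl⟩, ?_⟩
    · have h3 : (MulAut.conj g).toMonoidHom (z' ^ p ^ j) = y := by
        rw [map_pow]
        exact h2
      have h4 : (MulAut.conj g).toMonoidHom ((z' ^ p ^ j) ^ p) = (MulAut.conj g).toMonoidHom 1 := by
        rw [map_pow, h3, h1, map_one]
      exact (MulAut.conj g).injective h4
    · rw [map_pow]
      exact h2
  · rintro ⟨y', ⟨h1, z, hz, h2⟩, rfl⟩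
    refine ⟨?_, (MulAut.conj g).toMonoidHom z, ⟨z, hz, rfl⟩, ?_⟩
    · rw [← map_pow, h1, map_one]
    · rw [← map_pow, h2]

theorem ZE2_nc {G : Type} [Group G] (p j : ℕ) (g : G) (Z : Subgroup G) : (Om p j (cjS g Z)).ncard = (Om p j Z).ncard := by
  rw [ZE2_om]
  exact Set.ncard_image_of_injective _ (MulAut.conj g).injective

theorem ZE2_cd {G : Type} [Group G] (g : G) (Z : Subgroup G) : Nat.card (cjS g Z) = Nat.card Z :=
  (Nat.card_congr (Z.equivMapOfInjective (MulAut.conj g).toMonoidHom (MulAut.conj g).injective).toEquiv).symm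

theorem ZE2_eq {G : Type} [Group G] (p s : ℕ) (g : G) (Q : Subgroup G) : EQ p s (cjS g Q) = cjS g (EQ p s Q) := by
  unfold EQ
  rw [ZE2_om]
  exact (MonoidHom.map_closure _ _).symm

theorem ZE2 (hZE1 : ZE1_stmt) : ZE2_stmt := by
  intro p hp κ G _ _ Q hQ
  refine ⟨?_, ?_, ?_⟩
  · intro Q₁ hQ₁ hle
    have h1 := (hZE1 p hp κ G Q hQ).2.1.1
    have h2 := (hZE1 p hp κ G Q₁ hQ₁).2.1.1
    refine Subgroup.eq_of_le_of_card_ge ?_ (by rw [h1, h2])
    refine Subgroup.closure_mono ?_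
    rintro y ⟨h3, z, hz, h4⟩
    exact ⟨h3, z, hle hz, h4⟩
  · intro Q₁ hle hcen
    obtain ⟨k1, k2, k3, Z, hZ, hc, hcard, r1, r2, r3⟩ := hQ
    have hZQ₁ : Z ≤ Q₁ := by
      intro z hz
      have hzc : z ∈ cz Q₁ := by
        change z ∈ Subgroup.centralizer (Q₁ : Set G)
        rw [Subgroup.mem_centralizer_iff]
        intro x hx
        exact (hc z hz x (hle hx)).symm
      exact hcen ⟨hZ hz, hzc⟩
    refine ⟨k1, k2, k3.to_le hle, Z, hZQ₁, fun z hz x hx => hc z hz x (hle hx), ?_, r1, r2, r3⟩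
    exact (Subgroup.card_le_of_le hle).trans hcard
  · intro g
    refine ⟨?_, ZE2_eq p κ.s g Q⟩
    obtain ⟨k1, k2, k3, Z, hZ, hc, hcard, r1, r2, r3⟩ := hQ
    refine ⟨k1, k2, k3.map _, cjS g Z, Subgroup.map_mono hZ, ?_, ?_, ?_, ?_, ?_⟩
    · rintro _ ⟨z, hz, rfl⟩ _ ⟨x, hx, rfl⟩
      rw [← map_mul, ← map_mul, hc z hz x hx]
    · rw [ZE2_cd, ZE2_cd]
      exact hcard
    · rw [ZE2_nc]
      exact r1
    · rw [ZE2_nc]
      exact r2
    · rw [ZE2_nc]
      exact r3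

end Pool.Agent.ZB
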